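import Pool.Agent.Y300.KS.Stm

/-!
# Kostlan systems: the boxes of different cells are disjoint; the field in a cell
-/

set_option autoImplicit false

open Set

namespace Pool.Agent.Y67.KS

open Pool.Agent.K300 Pool.Agent.Y300.KS

theorem log_mono {x y n : ℝ} (hx : 0 < x) (hy : 0 < y) (hxn : x ≤ n) (hyn : y ≤ n) :
    ((x - y) / n) ^ 2 ≤ (Real.log x - Real.log y) * ((x - y) / n) := by
  have key : ∀ {x y : ℝ}, 0 < x → 0 < y → x ≤ n → y ≤ x →
      ((x - y) / n) ^ 2 ≤ (Real.log x - Real.log y) * ((x - y) / n) := by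
    intro x y hx hy hxn hyx
    have hn : 0 < n := hx.trans_le hxn
    have h1 : Real.log (y / x) ≤ y / x - 1 := Real.log_le_sub_one_of_pos (by positivity)
    rw [Real.log_div hy.ne' hx.ne'] at h1
    have h2 : (x - y) / n ≤ (x - y) / x := div_le_div_of_nonneg_left (by linarith) hx hxn
    have h3 : (x - y) / x = 1 - y / x := by field_simp
    have h4 : 0 ≤ (x - y) / n := div_nonneg (by linarith) hn.le
    rw [sq]
    refine mul_le_mul_of_nonneg_right ?_ h4
    linarith
  rcases le_total y x with h | h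
  · exact key hx hy hxn h
  · have h1 := key hy hx hyn h
    have e1 : (x - y) / n = -((y - x) / n) := by ring
    rw [e1]
    nlinarith [h1]

/-- the logarithm of the coordinates of a cell -/
theorem log_px {n I J : ℕ} (hI : 0 < I) (hK : I + J < n) (u : ℝ) :
    Real.log (px n I J u) = (Real.log I - Real.log ((n - I - J : ℕ) : ℝ)) / 2 + u / ell n := by
  have h1 : (0 : ℝ) < I := by exact_mod_cast hI
  have h2 : (0 : ℝ) < ((n - I - J : ℕ) : ℝ) := by
    have : 0 < n - I - J := by omega
    exact_mod_cast this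
  unfold px
  rw [Real.log_mul (by positivity) (Real.exp_pos _).ne', Real.log_exp, Real.log_sqrt (by positivity),
    Real.log_div h1.ne' h2.ne']

theorem log_py {n I J : ℕ} (hJ : 0 < J) (hK : I + J < n) (v : ℝ) :
    Real.log (py n I J v) = (Real.log J - Real.log ((n - I - J : ℕ) : ℝ)) / 2 + v / ell n := by
  have h1 : (0 : ℝ) < J := by exact_mod_cast hJ
  have h2 : (0 : ℝ) < ((n - I - J : ℕ) : ℝ) := by
    have : 0 < n - I - J := by omega
    exact_mod_cast this
  unfold py
  rw [Real.log_mul (by positivity) (Real.exp_pos _).ne', Real.log_exp, Real.log_sqrt (by positivity),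
    Real.log_div h1.ne' h2.ne']

theorem geo_all : S_GEO := by
  intro B hB
  refine ⟨⌈32 * B⌉₊ + 1, by omega, 1, ?_⟩
  intro n hn I J I' J' hc hc' hsep
  set D : ℕ := ⌈32 * B⌉₊ + 1 with hD
  have hDB : 32 * B < D := by
    rw [hD]
    push_cast
    linarith [Nat.le_ceil (32 * B)]
  have hell : 1 ≤ ell n := by
    unfold ell
    rw [Nat.le_sqrt]
    omega
  have hn4 : n ≤ 4 * (ell n * ell n) := by
    have h1 : n < (ell n + 1) * (ell n + 1) := Nat.lt_succ_sqrt n
    nlinarith
  obtain ⟨hI, hJ, hK⟩ := hc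
  obtain ⟨hI', hJ', hK'⟩ := hc'
  have pI : 0 < I := by omega
  have pJ : 0 < J := by omega
  have pK : I + J < n := by omega
  have pI' : 0 < I' := by omega
  have pJ' : 0 < J' := by omega
  have pK' : I' + J' < n := by omega
  rw [Set.disjoint_left]
  rintro p ⟨u, v, hu, hv, hp⟩ ⟨u', v', hu', hv', hp'⟩
  rw [hp] at hp'
  have e1 := congrArg Real.log (congrArg Prod.fst hp')
  have e2 := congrArg Real.log (congrArg Prod.snd hp')
  simp only at e1 e2
  rw [log_px pI pK, log_px pI' pK'] at e1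
  rw [log_py pJ pK, log_py pJ' pK'] at e2
  have hnR : (0 : ℝ) < n := by
    have : 0 < n := by omega
    exact_mod_cast this
  have hlR : (0 : ℝ) < ell n := by exact_mod_cast hell
  have rI : (0 : ℝ) < I := by exact_mod_cast pI
  have rJ : (0 : ℝ) < J := by exact_mod_cast pJ
  have rI' : (0 : ℝ) < I' := by exact_mod_cast pI'
  have rJ' : (0 : ℝ) < J' := by exact_mod_cast pJ'
  have cK : ((n - I - J : ℕ) : ℝ) = (n : ℝ) - I - J := by
    rw [Nat.sub_sub, Nat.cast_sub (by omega)]
    push_cast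
    ring
  have cK' : ((n - I' - J' : ℕ) : ℝ) = (n : ℝ) - I' - J' := by
    rw [Nat.sub_sub, Nat.cast_sub (by omega)]
    push_cast
    ring
  have rK : (0 : ℝ) < ((n - I - J : ℕ) : ℝ) := by
    have : 0 < n - I - J := by omega
    exact_mod_cast this
  have rK' : (0 : ℝ) < ((n - I' - J' : ℕ) : ℝ) := by
    have : 0 < n - I' - J' := by omega
    exact_mod_cast this
  have m1 := log_mono (n := (n : ℝ)) rI rI' (by exact_mod_cast (by omega : I ≤ n)) (by exact_mod_cast (by omega : I' ≤ n))
  have m2 := log_mono (n := (n : ℝ)) rJ rJ' (by exact_mod_cast (by omega : J ≤ n)) (by exact_mod_cast (by omega : J' ≤ n))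
  have m3 := log_mono (n := (n : ℝ)) rK rK' (by rw [cK]; linarith) (by rw [cK']; linarith)
  set a := Real.log I - Real.log I' with ha
  set b := Real.log J - Real.log J' with hb
  set k := Real.log ((n - I - J : ℕ) : ℝ) - Real.log ((n - I' - J' : ℕ) : ℝ) with hk
  set D1 := ((I : ℝ) - I') / n with hD1
  set D2 := ((J : ℝ) - J') / n with hD2
  have hD0 : (((n - I - J : ℕ) : ℝ) - ((n - I' - J' : ℕ) : ℝ)) / n = -(D1 + D2) := by
    rw [cK, cK', hD1, hD2]
    field_simp
    ring
  rw [hD0] at m3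
  have f1 : a - k = 2 * ((u' - u) / ell n) := by
    rw [ha, hk]
    have : (u' - u) / ell n = u' / ell n - u / ell n := sub_div _ _ _
    rw [this]
    linarith
  have f2 : b - k = 2 * ((v' - v) / ell n) := by
    rw [hb, hk]
    have : (v' - v) / ell n = v' / ell n - v / ell n := sub_div _ _ _
    rw [this]
    linarith
  have g1 : (a - k) * D1 ≤ 4 * B / ell n * |D1| := by
    have h1 : |a - k| ≤ 4 * B / ell n := by
      rw [f1, abs_mul, abs_two, abs_div, abs_of_pos hlR]
      have h2 : |u' - u| ≤ 2 * B := by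
        have := abs_sub u' u
        linarith
      calc 2 * (|u' - u| / ell n) ≤ 2 * (2 * B / ell n) := by gcongr
        _ = 4 * B / ell n := by ring
    calc (a - k) * D1 ≤ |(a - k) * D1| := le_abs_self _
      _ = |a - k| * |D1| := abs_mul _ _
      _ ≤ _ := by gcongr
  have g2 : (b - k) * D2 ≤ 4 * B / ell n * |D2| := by
    have h1 : |b - k| ≤ 4 * B / ell n := by
      rw [f2, abs_mul, abs_two, abs_div, abs_of_pos hlR]
      have h2 : |v' - v| ≤ 2 * B := by
        have := abs_sub v' v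
        linarith
      calc 2 * (|v' - v| / ell n) ≤ 2 * (2 * B / ell n) := by gcongr
        _ = 4 * B / ell n := by ring
    calc (b - k) * D2 ≤ |(b - k) * D2| := le_abs_self _
      _ = |b - k| * |D2| := abs_mul _ _
      _ ≤ _ := by gcongr
  have hsum : D1 ^ 2 + D2 ^ 2 ≤ 4 * B / ell n * (|D1| + |D2|) := by
    have h1 : a * D1 + b * D2 + k * (-(D1 + D2)) = (a - k) * D1 + (b - k) * D2 := by ring
    nlinarith [m1, m2, m3, g1, g2, h1, sq_nonneg (-(D1 + D2))]
  -- the lower bound
  have hlow : (D : ℝ) * ell n / n ≤ |D1| + |D2| := by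
    have hc : ∀ x y : ℕ, x + D * ell n ≤ y → (D : ℝ) * ell n / n ≤ |((x : ℝ) - y) / n| := by
      intro x y h
      have h1 : (x : ℝ) + D * ell n ≤ y := by exact_mod_cast h
      rw [abs_div, abs_of_pos hnR]
      refine div_le_div_of_nonneg_right ?_ hnR.le
      rw [abs_sub_comm]
      exact le_trans (by linarith) (le_abs_self _)
    rcases hsep with h | h | h | h
    · have := hc I I' h
      linarith [abs_nonneg D2]
    · have := hc I' I h
      have h3 : |((I' : ℝ) - I) / n| = |D1| := by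
        rw [hD1, ← abs_neg, ← neg_div, neg_sub]
      rw [h3] at this
      linarith [abs_nonneg D2]
    · have := hc J J' h
      linarith [abs_nonneg D1]
    · have := hc J' J h
      have h3 : |((J' : ℝ) - J) / n| = |D2| := by
        rw [hD2, ← abs_neg, ← neg_div, neg_sub]
      rw [h3] at this
      linarith [abs_nonneg D1]
  have hDpos : (0 : ℝ) < D := lt_of_le_of_lt (by linarith) hDB
  set S := |D1| + |D2| with hS
  have hSpos : 0 < S := lt_of_lt_of_le (by positivity) hlow
  have hSle : S ≤ 8 * B / ell n := by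
    have h1 : S ^ 2 ≤ 2 * (D1 ^ 2 + D2 ^ 2) := by
      rw [hS, ← sq_abs D1, ← sq_abs D2]
      nlinarith [sq_nonneg (|D1| - |D2|)]
    have h2 : S * S ≤ 8 * B / ell n * S := by
      have : 8 * B / ell n * S = 2 * (4 * B / ell n * S) := by ring
      rw [this]
      nlinarith
    exact le_of_mul_le_mul_right h2 hSpos
  have hfin : (D : ℝ) * ell n / n ≤ 8 * B / ell n := hlow.trans hSle
  rw [div_le_div_iff₀ hnR hlR] at hfin
  have h4R : (n : ℝ) ≤ 4 * (ell n * ell n) := by exact_mod_cast hn4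
  have h5 : 8 * B * n ≤ 32 * B * (ell n * ell n) := by
    calc 8 * B * n ≤ 8 * B * (4 * (ell n * ell n)) := by gcongr
      _ = _ := by ring
  have h6 : (D : ℝ) * (ell n * ell n) ≤ 32 * B * (ell n * ell n) := by
    calc (D : ℝ) * (ell n * ell n) = D * ell n * ell n := by ring
      _ ≤ 8 * B * n := hfin
      _ ≤ _ := h5
  have h7 : (D : ℝ) ≤ 32 * B := le_of_mul_le_mul_right h6 (by positivity)
  linarith

theorem fld_all : S_FLD := by
  intro n I J hI hJ hK u v
  have hnR : (0 : ℝ) < n := by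
    have : 0 < n := by omega
    exact_mod_cast this
  have rI : (0 : ℝ) < I := by exact_mod_cast hI
  have rJ : (0 : ℝ) < J := by exact_mod_cast hJ
  have rK : (0 : ℝ) < ((n - I - J : ℕ) : ℝ) := by
    have : 0 < n - I - J := by omega
    exact_mod_cast this
  have hlR : (0 : ℝ) < ell n := by
    have : 0 < ell n := Nat.sqrt_pos.2 (by omega)
    exact_mod_cast this
  set K : ℝ := ((n - I - J : ℕ) : ℝ) with hKdef
  refine ⟨√(((n : ℝ) / K) ^ n) * Real.exp ((I * u + J * v) / ell n), by positivity, ?_⟩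
  intro a
  unfold loc
  rw [Finset.mul_sum]
  refine Finset.sum_congr rfl fun m hm => ?_
  rw [mem_tri] at hm
  obtain ⟨i, j⟩ := m
  simp only at hm ⊢
  obtain ⟨r, hr⟩ := Nat.exists_eq_add_of_le hm
  have hr' : n - i - j = r := by omega
  have hsq : ∀ (x : ℝ) (k : ℕ), 0 ≤ x → √x ^ k = √(x ^ k) := by
    intro x k hx
    rw [eq_comm, Real.sqrt_eq_iff_mul_self_eq (by positivity) (by positivity), ← mul_pow,
      Real.mul_self_sqrt hx]
  have hsp : sp n I J (i, j) = wt n (i, j) * √(((I : ℝ) / n) ^ i * ((J : ℝ) / n) ^ j * (K / n) ^ (n - i - j)) := by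
    unfold sp wt pr
    rw [← Real.sqrt_mul (by positivity)]
  have hkey : √(((n : ℝ) / K) ^ n) * √(((I : ℝ) / n) ^ i * ((J : ℝ) / n) ^ j * (K / n) ^ (n - i - j)) =
      √((I : ℝ) / K) ^ i * √((J : ℝ) / K) ^ j := by
    rw [hsq _ _ (by positivity), hsq _ _ (by positivity), ← Real.sqrt_mul (by positivity),
      ← Real.sqrt_mul (by positivity)]
    congr 1
    rw [hr']
    have h1 : ((n : ℝ) / K) ^ n = ((n : ℝ) / K) ^ i * ((n : ℝ) / K) ^ j * ((n : ℝ) / K) ^ r := by
      rw [← pow_add, ← pow_add, ← hr]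
    rw [h1]
    have h2 : (I : ℝ) / K = (n : ℝ) / K * (I / n) := by field_simp
    have h3 : (J : ℝ) / K = (n : ℝ) / K * (J / n) := by field_simp
    have h4 : ((n : ℝ) / K) ^ r * (K / n) ^ r = 1 := by
      rw [← mul_pow]
      have : (n : ℝ) / K * (K / n) = 1 := by field_simp
      rw [this, one_pow]
    rw [h2, h3, mul_pow, mul_pow]
    linear_combination (((n : ℝ) / K) ^ i * ((n : ℝ) / K) ^ j * ((I : ℝ) / n) ^ i * ((J : ℝ) / n) ^ j) * h4
  have hexp : Real.exp ((I * u + J * v) / ell n) *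
      Real.exp (sx n I i * u + sx n J j * v) = Real.exp (u / ell n) ^ i * Real.exp (v / ell n) ^ j := by
    rw [← Real.exp_nat_mul, ← Real.exp_nat_mul, ← Real.exp_add, ← Real.exp_add]
    congr 1
    unfold sx
    field_simp
    ring
  unfold px py
  rw [hsp, mul_pow, mul_pow]
  calc wt n (i, j) * a (i, j) * (√((I : ℝ) / K) ^ i * Real.exp (u / ell n) ^ i *
        (√((J : ℝ) / K) ^ j * Real.exp (v / ell n) ^ j))
      = wt n (i, j) * a (i, j) * (√((I : ℝ) / K) ^ i * √((J : ℝ) / K) ^ j) *
        (Real.exp (u / ell n) ^ i * Real.exp (v / ell n) ^ j) := by ring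
    _ = _ := by
      rw [← hkey, ← hexp]
      ring

end Pool.Agent.Y67.KS
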